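import Mathlib
import Pool.Agent.Q260.PK.Gap

/-!
# MP_ad1e8a_co, Question 1: the answer is no

For `m = 6` colours and `n = 2` the spectral gap of the generalised pancake graph `P_6(2)` is at
most `1` (the function `cos (2π (c₁ - c₂)/6)` of the two colours has eigenvalue `3`), while the
gap of the quotient matrix is at least `1.1` (it is `4 - 2√2`).
-/

open Pool.Agent.Q260.PK

namespace Pool.Agent.Results.MP_ad1e8a_co.SixColours

/-- Coloured permutations `(χ, ψ)`: colour and letter at each position; positions and letters are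
`0, …, n-1`. -/
abbrev CPerm (m n : ℕ) : Type := (Fin n → ZMod m) × Equiv.Perm (Fin n)

/-- Reversal of the positions `0, …, k`. -/
def rev {n : ℕ} (k t : Fin n) : Fin n :=
  if t ≤ k then ⟨(k : ℕ) - (t : ℕ), by omega⟩ else t

lemma rev_rev {n : ℕ} (k t : Fin n) : rev k (rev k t) = t := by
  unfold rev
  by_cases h : t ≤ k
  · rw [if_pos h, if_pos (by rw [Fin.le_def]; simp)]
    ext
    have : (t : ℕ) ≤ k := h
    simp only
    omega
  · rw [if_neg h, if_neg h]

/-- The same as a permutation. -/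
def revPerm {n : ℕ} (k : Fin n) : Equiv.Perm (Fin n) := ⟨rev k, rev k, rev_rev k, rev_rev k⟩

/-- The prefix reversal: reverse the positions `0, …, k` and add `ε` to their colours. -/
def r {m n : ℕ} (k : Fin n) (ε : ZMod m) (x : CPerm m n) : CPerm m n :=
  (fun t => if t ≤ k then x.1 (rev k t) + ε else x.1 t, (revPerm k).trans x.2)

/-- The generalised pancake graph. -/
def pancake (m n : ℕ) : SimpleGraph (CPerm m n) :=
  SimpleGraph.fromRel fun x y => ∃ k : Fin n, ∃ ε : ZMod m, (ε = 1 ∨ ε = -1) ∧ y = r k ε x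

/-- The part `V_{i,j}`: the first letter is at position `j` and has colour `i`. -/
def part {m n : ℕ} (a : ZMod m × Fin n) : Set (CPerm m n) :=
  {x | ((x.2 a.2 : Fin n) : ℕ) = 0 ∧ x.1 a.2 = a.1}

/-- `Q` is the quotient matrix of the partition into the `V_{i,j}`. -/
def IsQuotient {m n : ℕ} (Q : Matrix (ZMod m × Fin n) (ZMod m × Fin n) ℝ) : Prop :=
  ∀ a b, ∀ u ∈ part a, Q a b = ({v | (pancake m n).Adj u v ∧ v ∈ part b}.ncard : ℝ)

open Classical in
/-- The spectral gap `λ₁ - λ₂` of the adjacency matrix of `P_m(n)`. -/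
noncomputable def graphGap (m n : ℕ) [NeZero m] : ℝ := gap ((pancake m n).adjMatrix ℝ)

/-! ### the four neighbours -/

lemma r_neg {m n : ℕ} (k : Fin n) (ε : ZMod m) (x : CPerm m n) : r k (-ε) (r k ε x) = x := by
  ext t
  · simp only [r]
    by_cases h : t ≤ k
    · have h' : rev k t ≤ k := by
        unfold rev
        rw [if_pos h, Fin.le_def]
        simp
      rw [if_pos h, if_pos h', rev_rev]
      ring
    · rw [if_neg h, if_neg h]
  · simp [r, revPerm, rev_rev]

/-- second letter function -/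
lemma rev00 : rev (0 : Fin 2) 0 = 0 := by decide
lemma rev01 : rev (0 : Fin 2) 1 = 1 := by decide
lemma rev10 : rev (1 : Fin 2) 0 = 1 := by decide
lemma rev11 : rev (1 : Fin 2) 1 = 0 := by decide

lemma c00 {m : ℕ} (ε : ZMod m) (x : CPerm m 2) : (r 0 ε x).1 0 = x.1 0 + ε := by
  simp [r, rev00]
lemma c01 {m : ℕ} (ε : ZMod m) (x : CPerm m 2) : (r 0 ε x).1 1 = x.1 1 := by
  simp [r]
lemma c10 {m : ℕ} (ε : ZMod m) (x : CPerm m 2) : (r 1 ε x).1 0 = x.1 1 + ε := by
  simp [r, rev10]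
lemma c11 {m : ℕ} (ε : ZMod m) (x : CPerm m 2) : (r 1 ε x).1 1 = x.1 0 + ε := by
  simp [r, rev11]
lemma l00 {m : ℕ} (ε : ZMod m) (x : CPerm m 2) : (r 0 ε x).2 0 = x.2 0 := by
  simp [r, revPerm, rev00]
lemma l01 {m : ℕ} (ε : ZMod m) (x : CPerm m 2) : (r 0 ε x).2 1 = x.2 1 := by
  simp [r, revPerm, rev01]
lemma l10 {m : ℕ} (ε : ZMod m) (x : CPerm m 2) : (r 1 ε x).2 0 = x.2 1 := by
  simp [r, revPerm, rev10]
lemma l11 {m : ℕ} (ε : ZMod m) (x : CPerm m 2) : (r 1 ε x).2 1 = x.2 0 := by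
  simp [r, revPerm, rev11]

lemma ne01 {m : ℕ} (x : CPerm m 2) : x.2 1 ≠ x.2 0 := fun h => absurd (x.2.injective h) (by decide)

lemma adj_iff (x y : CPerm 6 2) : (pancake 6 2).Adj x y ↔
    y = r 0 1 x ∨ y = r 0 (-1) x ∨ y = r 1 1 x ∨ y = r 1 (-1) x := by
  unfold pancake
  rw [SimpleGraph.fromRel_adj]
  have hfin : ∀ k : Fin 2, k = 0 ∨ k = 1 := by decide
  constructor
  · rintro ⟨-, ⟨k, ε, hε, h⟩ | ⟨k, ε, hε, h⟩⟩
    · rcases hfin k with rfl | rfl <;> rcases hε with rfl | rfl <;> simp [h]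
    · have h2 : y = r k (-ε) x := by rw [h, r_neg]
      rcases hfin k with rfl | rfl <;> rcases hε with rfl | rfl <;> simp [h2]
  · intro h
    have h1 : (1 : ZMod 6) ≠ 0 := by decide
    have h2 : (-1 : ZMod 6) ≠ 0 := by decide
    refine ⟨?_, Or.inl ?_⟩
    · rintro rfl
      rcases h with h | h | h | h
      · have := congrArg (fun z : CPerm 6 2 => z.1 0) h
        simp only [c00] at this
        exact h1 (by simpa using this)
      · have := congrArg (fun z : CPerm 6 2 => z.1 0) h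
        simp only [c00] at this
        exact h2 (by simpa using this)
      · have := congrArg (fun z : CPerm 6 2 => z.2 0) h
        simp only [l10] at this
        exact ne01 x this.symm
      · have := congrArg (fun z : CPerm 6 2 => z.2 0) h
        simp only [l10] at this
        exact ne01 x this.symm
    · rcases h with h | h | h | h
      · exact ⟨0, 1, Or.inl rfl, h⟩
      · exact ⟨0, -1, Or.inr rfl, h⟩
      · exact ⟨1, 1, Or.inl rfl, h⟩
      · exact ⟨1, -1, Or.inr rfl, h⟩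

lemma d1 (x : CPerm 6 2) : r 0 1 x ≠ r 0 (-1) x := by
  intro h
  have := congrArg (fun z : CPerm 6 2 => z.1 0) h
  simp only [c00] at this
  exact absurd (add_left_cancel this) (by decide)

lemma d2 (x : CPerm 6 2) : r 1 1 x ≠ r 1 (-1) x := by
  intro h
  have := congrArg (fun z : CPerm 6 2 => z.1 0) h
  simp only [c10] at this
  exact absurd (add_left_cancel this) (by decide)

lemma d3 (x : CPerm 6 2) (ε ε' : ZMod 6) : r 0 ε x ≠ r 1 ε' x := by
  intro h
  have := congrArg (fun z : CPerm 6 2 => z.2 0) h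
  simp only [l00, l10] at this
  exact ne01 x this.symm

/-- the four neighbours -/
def nbs (x : CPerm 6 2) : Finset (CPerm 6 2) := {r 0 1 x, r 0 (-1) x, r 1 1 x, r 1 (-1) x}

lemma sum_nbs (x : CPerm 6 2) (f : CPerm 6 2 → ℝ) : ∑ y ∈ nbs x, f y =
    f (r 0 1 x) + f (r 0 (-1) x) + f (r 1 1 x) + f (r 1 (-1) x) := by
  unfold nbs
  rw [Finset.sum_insert, Finset.sum_insert, Finset.sum_insert, Finset.sum_singleton]
  · ring
  · simp [d2]
  · simp [d3]
  · simp [d1, d3]

open Classical in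
lemma adj_sum (x : CPerm 6 2) (f : CPerm 6 2 → ℝ) :
    ((pancake 6 2).adjMatrix ℝ).mulVec f x =
      f (r 0 1 x) + f (r 0 (-1) x) + f (r 1 1 x) + f (r 1 (-1) x) := by
  rw [← sum_nbs, Matrix.mulVec, dotProduct]
  have h1 : ∀ y, (pancake 6 2).adjMatrix ℝ x y * f y = if y ∈ nbs x then f y else 0 := by
    intro y
    rw [SimpleGraph.adjMatrix_apply]
    have h2 : (pancake 6 2).Adj x y ↔ y ∈ nbs x := by
      rw [adj_iff]
      simp [nbs]
    by_cases h : y ∈ nbs x
    · rw [if_pos (h2.2 h), if_pos h, one_mul]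
    · rw [if_neg (fun h' => h (h2.1 h')), if_neg h, zero_mul]
  rw [Finset.sum_congr rfl fun y _ => h1 y]
  simp

/-! ### the graph -/

/-- the eigenfunction -/
def g6 : ZMod 6 → ℤ := ![2, 1, -1, -2, -1, 1]

lemma g6_eq : ∀ d : ZMod 6, g6 (d + 1) + g6 (d - 1) + 2 * g6 (-d) = 3 * g6 d := by decide

lemma graphGap_le : graphGap 6 2 ≤ 1 := by
  classical
  unfold graphGap
  have h4 : (4 : ℝ) ∈ ((pancake 6 2).adjMatrix ℝ).charpoly.roots := by
    rw [root_iff]
    refine ⟨fun _ => 1, ?_, ?_⟩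
    · intro h
      have := congrFun h (fun _ => 0, 1)
      norm_num at this
    · ext x
      rw [adj_sum]
      norm_num
  have h3 : (3 : ℝ) ∈ ((pancake 6 2).adjMatrix ℝ).charpoly.roots := by
    rw [root_iff]
    refine ⟨fun x => (g6 (x.1 0 - x.1 1) : ℝ), ?_, ?_⟩
    · intro h
      have := congrFun h (fun _ => 0, 1)
      simp [g6] at this
    · ext x
      rw [adj_sum, Pi.smul_apply, smul_eq_mul, c00, c00, c01, c01, c10, c10, c11, c11]
      have h1 := g6_eq (x.1 0 - x.1 1)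
      have e1 : x.1 0 + 1 - x.1 1 = x.1 0 - x.1 1 + 1 := by ring
      have e2 : x.1 0 + -1 - x.1 1 = x.1 0 - x.1 1 - 1 := by ring
      have e3 : x.1 1 + 1 - (x.1 0 + 1) = -(x.1 0 - x.1 1) := by ring
      have e4 : x.1 1 + -1 - (x.1 0 + -1) = -(x.1 0 - x.1 1) := by ring
      rw [e1, e2, e3, e4]
      have h2 : ((g6 (x.1 0 - x.1 1 + 1) + g6 (x.1 0 - x.1 1 - 1) +
        2 * g6 (-(x.1 0 - x.1 1)) : ℤ) : ℝ) = ((3 * g6 (x.1 0 - x.1 1) : ℤ) : ℝ) := by rw [h1]
      push_cast at h2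
      linarith
  have hmax : ∀ μ ∈ ((pancake 6 2).adjMatrix ℝ).charpoly.roots, μ ≤ 4 := by
    intro μ hμ
    rw [root_iff] at hμ
    obtain ⟨v, hv, h⟩ := hμ
    obtain ⟨x, -, hx⟩ := Finset.exists_max_image Finset.univ (fun x => |v x|)
      ⟨(fun _ => 0, 1), Finset.mem_univ _⟩
    have hx' : ∀ y, |v y| ≤ |v x| := fun y => hx y (Finset.mem_univ y)
    have hpos : 0 < |v x| := by
      rw [abs_pos]
      intro h0
      apply hv
      ext y
      have := hx' y
      rw [h0, abs_zero] at this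
      simpa using this
    have h1 := congrFun h x
    rw [adj_sum, Pi.smul_apply, smul_eq_mul] at h1
    have h2 : |μ * v x| ≤ 4 * |v x| := by
      rw [← h1]
      refine (abs_add_le _ _).trans ?_
      refine (add_le_add (abs_add_le _ _) le_rfl).trans ?_
      refine (add_le_add (add_le_add (abs_add_le _ _) le_rfl) le_rfl).trans ?_
      linarith [hx' (r 0 1 x), hx' (r 0 (-1) x), hx' (r 1 1 x), hx' (r 1 (-1) x)]
    rw [abs_mul] at h2
    exact (le_abs_self μ).trans (le_of_mul_le_mul_right h2 hpos)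
  have := gap_le ((pancake 6 2).adjMatrix ℝ) 4 3 (by norm_num) h4 h3 hmax
  linarith

/-! ### the quotient matrix -/

/-- the quotient matrix, over the integers -/
def QQ : Matrix (ZMod 6 × Fin 2) (ZMod 6 × Fin 2) ℤ := Matrix.of fun a b =>
  (if a.1 = b.1 ∧ a.2 = 1 ∧ b.2 = 1 then 2 else 0) +
    (if (b.1 = a.1 + 1 ∨ b.1 = a.1 - 1) ∧ (a.2 = 0 ∨ b.2 = 0) then 1 else 0)

/-- the six real Fourier vectors -/
def FF : Fin 6 → ZMod 6 → ℤ :=
  ![![2, 2, 2, 2, 2, 2], ![2, 1, -1, -2, -1, 1], ![1, 2, 1, -1, -2, -1], ![2, -1, -1, 2, -1, -1],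
    ![-1, 2, -1, -1, 2, -1], ![2, -2, 2, -2, 2, -2]]

/-- twelve times the inverse -/
def GG : Fin 6 → ZMod 6 → ℤ :=
  ![![1, 1, 1, 1, 1, 1], ![2, 0, -2, -2, 0, 2], ![0, 2, 2, 0, -2, -2], ![2, 0, -2, 2, 0, -2],
    ![0, 2, -2, 0, 2, -2], ![1, -1, 1, -1, 1, -1]]

/-- `2 cos (2 π k / 6)` -/
def tt : Fin 6 → ℤ := ![2, 1, 1, -1, -1, -2]

/-- the blocks -/
def TT (k : Fin 6) : Matrix (Fin 2) (Fin 2) ℤ := !![tt k, tt k; tt k, 2]

/-- the intertwiner -/
def SS : Matrix (ZMod 6 × Fin 2) (Fin 2 × Fin 6) ℤ := Matrix.of fun a b =>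
  if a.2 = b.1 then FF b.2 a.1 else 0

/-- its inverse -/
def SI : Matrix (Fin 2 × Fin 6) (ZMod 6 × Fin 2) ℤ := Matrix.of fun b a =>
  if a.2 = b.1 then GG b.2 a.1 else 0

lemma QS : QQ * SS = SS * Matrix.blockDiagonal TT := by decide

lemma SSI : SS * SI = Matrix.of fun a b => if a = b then 12 else 0 := by decide

/-- the quotient matrix -/
noncomputable def QR : Matrix (ZMod 6 × Fin 2) (ZMod 6 × Fin 2) ℝ := QQ.map (Int.castRingHom ℝ)

lemma charpoly_QR : QR.charpoly = ∏ k, ((TT k).map (Int.castRingHom ℝ)).charpoly := by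
  rw [← charpoly_blockDiagonal]
  refine charpoly_conj (by decide) QR _ (SS.map (Int.castRingHom ℝ))
    ((1 / 12 : ℝ) • SI.map (Int.castRingHom ℝ)) ?_ ?_
  · have h := congrArg (fun M => M.map (Int.castRingHom ℝ)) QS
    simp only [Matrix.map_mul] at h
    unfold QR
    rw [h]
    congr 1
    ext ⟨i, k⟩ ⟨j, l⟩
    simp only [Matrix.map_apply, Matrix.blockDiagonal_apply]
    split_ifs <;> simp
  · have h := congrArg (fun M => M.map (Int.castRingHom ℝ)) SSI
    simp only [Matrix.map_mul] at h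
    rw [Matrix.mul_smul, h]
    ext i j
    rw [Matrix.smul_apply, Matrix.map_apply, Matrix.of_apply, Matrix.one_apply]
    split_ifs <;> simp

lemma block_root (t : ℤ) (x : ℝ)
    (hx : x ∈ ((!![t, t; t, 2] : Matrix (Fin 2) (Fin 2) ℤ).map (Int.castRingHom ℝ)).charpoly.roots) :
    x ^ 2 - (t + 2) * x + (2 * t - t * t) = 0 := by
  have h := (Polynomial.mem_roots'.1 hx).2
  rw [Polynomial.IsRoot, Matrix.charpoly_fin_two] at h
  simp [Matrix.trace_fin_two, Matrix.det_fin_two] at h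
  linarith

lemma htt : ∀ k : Fin 5, tt k.succ = 1 ∨ tt k.succ = -1 ∨ tt k.succ = -2 := by decide

lemma gap_QR : 11 / 10 ≤ gap QR := by
  have hne : ∀ k, ((TT k).map (Int.castRingHom ℝ)).charpoly ≠ 0 := fun k =>
    (Matrix.charpoly_monic _).ne_zero
  have h0 : ((TT 0).map (Int.castRingHom ℝ)).charpoly.roots = 4 ::ₘ {0} := by
    have h1 : ((TT 0).map (Int.castRingHom ℝ)).charpoly =
        (Polynomial.X - Polynomial.C 4) * (Polynomial.X - Polynomial.C 0) := by
      have e1 : ((TT 0).map (Int.castRingHom ℝ)).trace = 4 := by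
        simp [TT, tt, Matrix.trace_fin_two]
        norm_num
      have e2 : ((TT 0).map (Int.castRingHom ℝ)).det = 0 := by
        simp [TT, tt, Matrix.det_fin_two]
      rw [Matrix.charpoly_fin_two, e1, e2, Polynomial.C_0]
      ring
    rw [h1, Polynomial.roots_mul (mul_ne_zero (Polynomial.X_sub_C_ne_zero _)
      (Polynomial.X_sub_C_ne_zero _)), Polynomial.roots_X_sub_C, Polynomial.roots_X_sub_C]
    rfl
  have hroots : QR.charpoly.roots = 4 ::ₘ ({0} +
      ∑ k : Fin 5, ((TT k.succ).map (Int.castRingHom ℝ)).charpoly.roots) := by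
    rw [charpoly_QR, Polynomial.roots_prod _ _ (Finset.prod_ne_zero_iff.2 fun k _ => hne k)]
    change (∑ k : Fin 6, ((TT k).map (Int.castRingHom ℝ)).charpoly.roots) = _
    rw [Fin.sum_univ_succ, h0, Multiset.cons_add]
  have h2 := gap_ge QR 4 (29 / 10) _ hroots (by norm_num) (by norm_num) (by
    intro x hx
    rw [Multiset.mem_add] at hx
    rcases hx with hx | hx
    · rw [Multiset.mem_singleton] at hx
      rw [hx]; norm_num
    · rw [Multiset.mem_sum] at hx
      obtain ⟨k, -, hk⟩ := hx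
      have h3 := block_root (tt k.succ) x hk
      by_contra hcon
      push Not at hcon
      rcases htt k with ht | ht | ht <;> rw [ht] at h3 <;> push_cast at h3 <;> nlinarith)
  linarith

lemma q00 : ∀ i i' : ZMod 6, QQ (i, 0) (i', 0) =
    (if i + 1 = i' then 1 else 0) + (if i + -1 = i' then 1 else 0) := by decide
lemma q01 : ∀ i i' : ZMod 6, QQ (i, 0) (i', 1) =
    (if i + 1 = i' then 1 else 0) + (if i + -1 = i' then 1 else 0) := by decide
lemma q10 : ∀ i i' : ZMod 6, QQ (i, 1) (i', 0) =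
    (if i + 1 = i' then 1 else 0) + (if i + -1 = i' then 1 else 0) := by decide
lemma q11 : ∀ i i' : ZMod 6, QQ (i, 1) (i', 1) = if i = i' then 2 else 0 := by decide

lemma quotient : IsQuotient (m := 6) (n := 2) QR := by
  classical
  rintro ⟨i, j⟩ ⟨i', j'⟩ u ⟨hu1, hu2⟩
  simp only at hu1 hu2
  have h1 : {v | (pancake 6 2).Adj u v ∧ v ∈ part (m := 6) (n := 2) (i', j')} =
      (((nbs u).filter fun v => ((v.2 j' : Fin 2) : ℕ) = 0 ∧ v.1 j' = i' : Finset _) : Set _) := by
    ext v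
    simp only [Set.mem_ofPred_eq, Finset.coe_filter, adj_iff, nbs, part, Finset.mem_insert,
      Finset.mem_singleton]
  rw [h1, Set.ncard_coe_finset, Finset.card_filter]
  push_cast
  rw [sum_nbs u (fun v => if ((v.2 j' : Fin 2) : ℕ) = 0 ∧ v.1 j' = i' then (1 : ℝ) else 0)]
  have hQ : ∀ a b, QR a b = ((QQ a b : ℤ) : ℝ) := fun _ _ => rfl
  rw [hQ]
  have hne : (1 : ZMod 6) ≠ -1 := by decide
  have hlet : ∀ a b : Fin 2, u.2 a ≠ u.2 b → ((u.2 a : Fin 2) : ℕ) = 0 →
      ((u.2 b : Fin 2) : ℕ) ≠ 0 := by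
    intro a b hab ha hb
    apply hab
    ext
    rw [ha, hb]
  have hn01 : u.2 1 ≠ u.2 0 := ne01 u
  have hfin : ∀ k : Fin 2, k = 0 ∨ k = 1 := by decide
  rcases hfin j with rfl | rfl <;> rcases hfin j' with rfl | rfl
  · have h0 := hlet 0 1 (Ne.symm hn01) hu1
    rw [q00]
    simp only [c00, c10, l00, l10, hu1, hu2, h0, true_and, false_and, if_false, add_zero]
    push_cast
    rfl
  · have h0 := hlet 0 1 (Ne.symm hn01) hu1
    rw [q01]
    simp only [c01, c11, l01, l11, hu1, hu2, h0, true_and, false_and, if_false, zero_add]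
    push_cast
    rfl
  · have h0 := hlet 1 0 hn01 hu1
    rw [q10]
    simp only [c00, c10, l00, l10, hu1, hu2, h0, true_and, false_and, if_false, zero_add]
    push_cast
    rfl
  · have h0 := hlet 1 0 hn01 hu1
    rw [q11]
    simp only [c01, c11, l01, l11, hu1, hu2, h0, true_and, false_and, if_false, add_zero]
    push_cast
    split_ifs <;> norm_num

/-- **Theorem.** The spectral gap of the generalised pancake graph `P_6(2)` is strictly smaller
than the gap of the quotient matrix of the partition into the parts `V_{i,j}`; so the equality of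
the two gaps does not hold for all `m ≥ 2` and `n ≥ 2`. -/
theorem result :
    (∃ Q : Matrix (ZMod 6 × Fin 2) (ZMod 6 × Fin 2) ℝ, IsQuotient Q ∧ graphGap 6 2 < gap Q) ∧
    ¬ ∀ (m n : ℕ) [NeZero m], 2 ≤ m → 2 ≤ n →
      ∀ Q : Matrix (ZMod m × Fin n) (ZMod m × Fin n) ℝ, IsQuotient Q → graphGap m n = gap Q := by
  have h : graphGap 6 2 < gap QR := by
    have h1 := graphGap_le
    have h2 := gap_QR
    linarith
  refine ⟨⟨QR, quotient, h⟩, fun h' => ?_⟩
  exact h.ne (h' 6 2 (by norm_num) le_rfl QR quotient)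

end Pool.Agent.Results.MP_ad1e8a_co.SixColours
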